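import Pool.Agent.Y992.HL.Stm
import Pool.Agent.W933.UG.Lv0
import Pool.Agent.W800.UG.Lv
import Pool.Agent.W351.UG.Linf

set_option autoImplicit false

/-! Project HL (helper992): levels. Ports of `W933/UG/Lv0`, `W800/UG/Lv`, `W351/UG/Linf`. -/

namespace Pool.Agent.Y858.HL

open Finset Pool.Agent.H983R2.GC Pool.Agent.W341.UG Pool.Agent.Y992.HL
open Pool.Agent.W933.UG (uu_le)
open Pool.Agent.W800.UG (pr_zz uu_K adf_update)
open Pool.Agent.W351.UG (ee_adf pr_nn)

theorem t_LV0' (hP : S_PRB) : S_LV0' := by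
  intro V C _ _ _ _ G D c0 s N hs hD R L f W t _ hf hL _ hW ht
  have hWf : W ⊆ {f} := by
    intro w hw
    exact Finset.mem_singleton.2 ((hD f w).1 (hW w hw)).symm
  have hne : (Col G c0 R L).Nonempty := col_nonempty G c0 _ _ (Sl_mono G (by omega) _ _ hL)
  have hu := uu_le G c0 s hs R L f W t hf hL hWf ht
  have hsq : ∀ c, (uu G c0 R L (adf W t) f c) ^ 2 ≤ 1 := fun c => by
    rw [← sq_abs]
    exact pow_le_one₀ (abs_nonneg _) (hu c)
  have hs0 : (0 : ℝ) < s := by
    have : 0 < s := by omega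
    exact_mod_cast this
  refine ⟨?_, fun c => ?_, hu⟩
  · calc ∑ c, pr G c0 R L f c * (uu G c0 R L (adf W t) f c) ^ 2
        ≤ ∑ c, pr G c0 R L f c := Finset.sum_le_sum fun c _ =>
          mul_le_of_le_one_right (pr_nonneg G c0 R L f c) (hsq c)
      _ = 1 ^ 2 := by rw [pr_sum G c0 R L f hne]; norm_num
  · have h1 := hP V C G c0 R L f c s (by omega) hf (hL f hf)
    have h2 : (s : ℝ) * pr G c0 R L f c ≤ 1 := by
      rw [le_div_iff₀ hs0] at h1
      linarith
    have h3 : 0 ≤ (s : ℝ) * pr G c0 R L f c := mul_nonneg hs0.le (pr_nonneg G c0 R L f c)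
    calc (s : ℝ) * pr G c0 R L f c * (uu G c0 R L (adf W t) f c) ^ 2 ≤ 1 * 1 :=
          mul_le_mul h2 (hsq c) (sq_nonneg _) zero_le_one
      _ = 1 ^ 2 := by norm_num

theorem t_LV' (hK : S_ERRK') (hZ : S_ERRZ') (hS : S_STEP) (hP : S_PRB) : S_LV' := by
  intro V C _ _ _ _ G D c0 s Δ N k ε δ b r M lam h2s hδ hε hb hr hM hlam hD hΔ
    hεΔ hBRN hLVB hlamc R L f W t hRc hf hSl hWR hWd hOsc
  have hs1 : 1 ≤ s := by omega
  have hspos : (0 : ℝ) < (s : ℝ) := by exact_mod_cast (by omega : 0 < s)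
  set R' := R.erase f with hR'
  have hf' : f ∉ R' := by simp [hR']
  have hR'c : R'.card ≤ N + 1 := by
    rw [hR', Finset.card_erase_of_mem hf]; omega
  have hfW : f ∉ W := by
    intro h
    have := hWd f h
    rw [(hD f f).2 rfl] at this
    omega
  have hWR' : W ⊆ R' := fun w hw =>
    Finset.mem_erase.2 ⟨fun e => hfW (e ▸ hw), hWR hw⟩
  have hSl' : Sl G s R' L := Sl_del G s R L f hf hSl
  have hSlP' : SlP G s R' (nb G R' f) L := SlP_del G s R L f hf hSl
  have hneR' : (Col G c0 R' L).Nonempty :=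
    col_nonempty G c0 _ _ (Sl_mono G hs1 _ _ hSl')
  have hneR : (Col G c0 R L).Nonempty :=
    col_nonempty G c0 _ _ (Sl_mono G hs1 _ _ hSl)
  have hBr := hBRN R' f W hR'c hf' hWR' hWd
  set Wg : V → Finset V := fun g => W.filter (fun w => D g w = k) with hWgd
  have hlev : ∀ g ∈ nb G R' f,
      (∑ c, pr G c0 R' L g c * (uu G c0 R' L (adf (Wg g) t) g c) ^ 2 ≤ b ^ 2) ∧
      (∀ c, (s : ℝ) * pr G c0 R' L g c * (uu G c0 R' L (adf (Wg g) t) g c) ^ 2 ≤ r ^ 2) ∧
      (∀ c, |uu G c0 R' L (adf (Wg g) t) g c| ≤ M) := by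
    intro g hg
    refine hLVB R' L g (Wg g) t hR'c (nb_subset G R' f hg) hSl' ((hBr.sub g hg).trans hWR') ?_ hOsc
    intro w hw
    exact (Finset.mem_filter.1 hw).2
  -- cardinalities
  have hcard : ((nb G R' f).card : ℝ) ≤ Δ := by
    have h1 : (nb G R' f).card ≤ (nb G univ f).card := by
      refine Finset.card_le_card fun x hx => ?_
      rw [mem_nb] at hx ⊢
      exact ⟨Finset.mem_univ _, hx.2⟩
    exact_mod_cast h1.trans (hΔ f)
  have hεc : ε * ((nb G R' f).card : ℝ) ≤ s :=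
    (mul_le_mul_of_nonneg_left hcard hε.le).trans hεΔ
  have hcs : ((nb G R' f).card : ℝ) / s ≤ 1 / ε := by
    rw [div_le_div_iff₀ hspos hε]
    linarith
  have hcs0 : 0 ≤ ((nb G R' f).card : ℝ) / s := by positivity
  have hη : ((nb G R' f).card : ℝ) / s * δ ≤ δ / ε := by
    calc ((nb G R' f).card : ℝ) / s * δ ≤ 1 / ε * δ := mul_le_mul_of_nonneg_right hcs hδ
      _ = δ / ε := by ring
  set e : ℝ := δ / ε * (1 + 2 / ε + 4 * M) with he
  have he0 : 0 ≤ e := by positivity
  set K : C → ℝ := fun c => EE G c0 R' (era L (nb G R' f) c) (adf W t) -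
    EE G c0 R' L (adf W t) with hKd
  have hKe : ∀ c, |K c + ∑ g ∈ nb G R' f, pr G c0 R' L g c / (1 - pr G c0 R' L g c) *
      uu G c0 R' L (adf (Wg g) t) g c| ≤ e := by
    intro c
    refine (hK V C G c0 s δ h2s hδ R' L f c W Wg t M hf' hSl' hSlP' hWR' hOsc hBr
      hM (fun g hg => (hlev g hg).2.2 c)).trans ?_
    have h1 : 1 + 2 * (((nb G R' f).card : ℝ) / s) + 4 * M ≤ 1 + 2 / ε + 4 * M := by
      have : 2 / ε = 2 * (1 / ε) := by ring
      rw [this]
      linarith
    calc ((nb G R' f).card : ℝ) / s * δ * (1 + 2 * (((nb G R' f).card : ℝ) / s) + 4 * M)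
        ≤ δ / ε * (1 + 2 * (((nb G R' f).card : ℝ) / s) + 4 * M) :=
          mul_le_mul_of_nonneg_right hη (by positivity)
      _ ≤ e := mul_le_mul_of_nonneg_left h1 (by positivity)
  have hZc : ∀ c, Real.exp (-((1 + 1 / (s : ℝ)) * (∑ g ∈ nb G R' f, pr G c0 R' L g c + δ / ε))) ≤
      zz G c0 R' (nb G R' f) L c ∧ zz G c0 R' (nb G R' f) L c ≤
        Real.exp (-(∑ g ∈ nb G R' f, pr G c0 R' L g c) + δ / ε) := by
    intro c
    obtain ⟨h1, h2⟩ := hZ V C G c0 s δ h2s hδ R' L f c W Wg hf' hSl' hSlP' hBr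
    refine ⟨le_trans (Real.exp_le_exp.2 ?_) h1, le_trans h2 (Real.exp_le_exp.2 ?_)⟩
    · have h3 : (0 : ℝ) ≤ 1 + 1 / (s : ℝ) := by positivity
      have := mul_le_mul_of_nonneg_left hη h3
      nlinarith
    · linarith
  have hLf : (nb G R' f).card + s ≤ (L f).card := by
    have := hSl f hf
    rwa [← nb_erase_self] at this
  have hLfne : (L f).Nonempty := by
    rw [← Finset.card_pos]; omega
  have key := hS V C (nb G R' f) (L f) (fun g c => pr G c0 R' L g c)
    (fun g c => uu G c0 R' L (adf (Wg g) t) g c) (fun c => zz G c0 R' (nb G R' f) L c) K s ε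
    (δ / ε) e b r lam hs1 hε (by positivity) he0 hb hr hlam hLfne hεc hLf
    (fun g hg c => ⟨pr_nonneg _ _ _ _ _ _, by
      have := hP V C G c0 R' L g c (s + 1) (by omega) (nb_subset G R' f hg) (by
        have := hSlP' g hg
        omega)
      push_cast at this
      exact this⟩)
    (fun g hg => (pr_sum G c0 R' L g hneR').le)
    (fun g hg => (hlev g hg).1) (fun g hg => (hlev g hg).2.1) (fun c _ => (hZc c).1)
    (fun c _ => (hZc c).2) hKe hlamc
  have hpr : ∀ c, (if c ∈ L f then zz G c0 R' (nb G R' f) L c /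
      ∑ c' ∈ L f, zz G c0 R' (nb G R' f) L c' else 0) = pr G c0 R L f c := fun c =>
    pr_zz G c0 R L f hf hneR' c
  have huu : ∀ c, K c - ∑ c', pr G c0 R L f c' * K c' = uu G c0 R L (adf W t) f c := fun c =>
    (uu_K G c0 R L f hf hneR W hfW t c).symm
  simp only [hpr, huu] at key
  refine ⟨key.1, fun c => key.2.1 c ?_, key.2.2⟩
  have := hP V C G c0 R L f c s hs1 hf (hSl f hf)
  rw [le_div_iff₀ hspos] at this
  linarith

theorem t_LINF' (hK : S_ERRK') (hB : S_KB) (hP : S_PRB) : S_LINF' := by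
  intro V C _ _ _ _ G D c0 s Δ N k ε δ b r M hs hδ hε hb hr hM hΔ hεΔ hBRN hLV
    R L v b' c' W hRc hv hSl hSlP hWR hdist
  have hBr := hBRN R v W hRc hv hWR hdist
  set Wg : V → Finset V := fun g => W.filter (fun w => D g w = k) with hWgd
  have hmnb : ∀ y, y ∈ nb G R v → y ∈ R ∧ y ∈ nb G univ v := by
    intro y hy
    classical
    simp only [nb, mem_filter, mem_univ, true_and] at hy ⊢
    exact hy
  have hScard : (nb G R v).card ≤ Δ := by
    exact le_trans (card_le_card fun y hy => (hmnb y hy).2) (hΔ v)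
  have hεS : ε * ((nb G R v).card : ℝ) ≤ s :=
    le_trans (mul_le_mul_of_nonneg_left (by exact_mod_cast hScard) hε.le) hεΔ
  have hs0 : (0 : ℝ) < s := by
    have : 0 < s := by omega
    exact_mod_cast this
  obtain ⟨t, ht⟩ : ∃ t : V → C → ℝ, t = fun w a =>
    if pr G c0 R (era L (nb G R v) c') w a ≤ pr G c0 R (era L (nb G R v) b') w a then 1 / 2
      else -(1 / 2) := ⟨_, rfl⟩
  have hOsc : Osc t := by
    intro w a a'
    rw [ht]
    dsimp only
    split_ifs <;> norm_num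
  have hgR : ∀ g ∈ nb G R v, g ∈ R := by
    intro g hg
    exact (hmnb g hg).1
  have he : 0 ≤ δ / ε * (1 + 2 / ε + 4 * M) := by positivity
  have key : ∀ c, |EE G c0 R (era L (nb G R v) c) (adf W t) - EE G c0 R L (adf W t)| ≤
      2 / ε * r + δ / ε * (1 + 2 / ε + 4 * M) := by
    intro c
    have hu : ∀ g ∈ nb G R v,
        (∑ c, pr G c0 R L g c * (uu G c0 R L (adf (Wg g) t) g c) ^ 2 ≤ b ^ 2) ∧
        (∀ c, (s : ℝ) * pr G c0 R L g c * (uu G c0 R L (adf (Wg g) t) g c) ^ 2 ≤ r ^ 2) ∧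
        (∀ c, |uu G c0 R L (adf (Wg g) t) g c| ≤ M) := by
      intro g hg
      refine hLV R L g (Wg g) t hRc (hgR g hg) hSl ((hBr.sub g hg).trans hWR) ?_ hOsc
      intro w hw
      exact (Finset.mem_filter.1 hw).2
    refine hB V (nb G R v) (fun g => pr G c0 R L g c) (fun g => uu G c0 R L (adf (Wg g) t) g c)
      _ ε _ r s (by omega) hε he hr hεS ?_ ?_ ?_
    · intro g hg
      refine ⟨pr_nn _ _ _ _ _ _, ?_⟩
      have h3 := hP V C G c0 R L g c (s + 1) (by omega) (hgR g hg) (by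
        have := hSlP g hg
        omega)
      have h4 : ((s + 1 : ℕ) : ℝ) = (s : ℝ) + 1 := by push_cast; ring
      rw [h4] at h3
      exact h3
    · intro g hg
      exact (hu g hg).2.1 c
    · refine le_trans (hK V C G c0 s δ hs hδ R L v c W Wg t M hv hSl hSlP hWR
        hOsc hBr hM (fun g hg => (hu g hg).2.2 c)) ?_
      have hx0 : 0 ≤ ((nb G R v).card : ℝ) / s := by positivity
      have hx1 : ((nb G R v).card : ℝ) / s ≤ 1 / ε := by
        rw [div_le_div_iff₀ hs0 hε]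
        linarith
      have h5 : ((nb G R v).card : ℝ) / s * δ ≤ δ / ε := by
        calc ((nb G R v).card : ℝ) / s * δ ≤ 1 / ε * δ := mul_le_mul_of_nonneg_right hx1 hδ
          _ = δ / ε := by ring
      have h6 : 1 + 2 * (((nb G R v).card : ℝ) / s) + 4 * M ≤ 1 + 2 / ε + 4 * M := by
        have h7 : 2 * (1 / ε) = 2 / ε := by ring
        linarith
      refine mul_le_mul h5 h6 ?_ ?_
      · positivity
      · positivity
  have hsum : ∑ w ∈ W, ∑ a, |pr G c0 R (era L (nb G R v) b') w a -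
      pr G c0 R (era L (nb G R v) c') w a| =
      2 * (EE G c0 R (era L (nb G R v) b') (adf W t) -
        EE G c0 R (era L (nb G R v) c') (adf W t)) := by
    rw [ee_adf, ee_adf, ← Finset.sum_sub_distrib, Finset.mul_sum]
    refine Finset.sum_congr rfl fun w _ => ?_
    rw [← Finset.sum_sub_distrib, Finset.mul_sum]
    refine Finset.sum_congr rfl fun a _ => ?_
    rw [ht]
    dsimp only
    split_ifs with h
    · rw [abs_of_nonneg (by linarith)]
      ring
    · rw [abs_of_neg (by linarith)]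
      ring
  rw [hsum]
  have hb1 := abs_le.1 (key b')
  have hc1 := abs_le.1 (key c')
  linarith [hb1.2, hc1.1]

end Pool.Agent.Y858.HL
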